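import Pool.Agent.Q103.OP.Defs

set_option autoImplicit false

/-!
# Project OP of helper103, job ALM (helper150): an attracting periodic point attracts a critical point
-/

namespace Pool.Agent.Q150.OP

open Pool.Agent.W277.UB Pool.Agent.W277.UH Pool.Agent.Q103.OP Finset Polynomial
open Pool.Agent.Y706.CH (bK)

universe u

/-- two-sided bounds for iterates -/
lemma iter_bounds {Ω : Type u} [NormedField Ω] (F : Ω × Ω → Ω × Ω) (d : ℕ) (R : ℝ)
    (h : ∀ Z : Ω × Ω, Real.exp (-R) * ‖Z‖ ^ d ≤ ‖F Z‖ ∧ ‖F Z‖ ≤ Real.exp R * ‖Z‖ ^ d) (m : ℕ) (Z : Ω × Ω) :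
    Real.exp (-(R * ∑ j ∈ range m, (d : ℝ) ^ j)) * ‖Z‖ ^ d ^ m ≤ ‖F^[m] Z‖ ∧
      ‖F^[m] Z‖ ≤ Real.exp (R * ∑ j ∈ range m, (d : ℝ) ^ j) * ‖Z‖ ^ d ^ m := by
  induction m with
  | zero => simp
  | succ m ih =>
    have e1 : R * ∑ j ∈ range (m + 1), (d : ℝ) ^ j = R + (d : ℕ) * (R * ∑ j ∈ range m, (d : ℝ) ^ j) := by
      rw [Finset.sum_range_succ', pow_zero, mul_add, mul_one, add_comm, Finset.mul_sum, Finset.mul_sum,
        Finset.mul_sum]
      congr 1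
      refine Finset.sum_congr rfl fun j _ => ?_
      rw [pow_succ]
      ring
    rw [Function.iterate_succ_apply', e1]
    obtain ⟨h1, h2⟩ := h (F^[m] Z)
    constructor
    · refine le_trans ?_ h1
      have h3 : (Real.exp (-(R * ∑ j ∈ range m, (d : ℝ) ^ j)) * ‖Z‖ ^ d ^ m) ^ d ≤ ‖F^[m] Z‖ ^ d :=
        pow_le_pow_left₀ (by positivity) ih.1 d
      have h4 := mul_le_mul_of_nonneg_left h3 (Real.exp_pos (-R)).le
      refine le_trans (le_of_eq ?_) h4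
      have e2 : Real.exp (-(R + (d : ℕ) * (R * ∑ j ∈ range m, (d : ℝ) ^ j))) =
          Real.exp (-R) * Real.exp ((d : ℕ) * -(R * ∑ j ∈ range m, (d : ℝ) ^ j)) := by
        rw [← Real.exp_add]
        congr 1
        ring
      rw [e2, mul_pow, ← pow_mul, ← pow_succ, ← Real.exp_nat_mul, mul_assoc]
    · refine le_trans h2 ?_
      have h3 : ‖F^[m] Z‖ ^ d ≤ (Real.exp (R * ∑ j ∈ range m, (d : ℝ) ^ j) * ‖Z‖ ^ d ^ m) ^ d :=
        pow_le_pow_left₀ (norm_nonneg _) ih.2 d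
      have h4 := mul_le_mul_of_nonneg_left h3 (Real.exp_pos R).le
      refine le_trans h4 (le_of_eq ?_)
      rw [Real.exp_add R, mul_pow, ← pow_mul, ← pow_succ, ← Real.exp_nat_mul, mul_assoc]

/-- **ALM** -/
theorem t_ALM (hIT : S_ITER.{u}) (hAL : S_AL.{u}) : S_ALM.{u} := by
  intro d m hd hm
  have hdm : 2 ≤ d ^ m := le_trans hd (Nat.le_self_pow (by omega) d)
  obtain ⟨C₁, hC, hal⟩ := hAL (d ^ m) hdm
  refine ⟨C₁ * ∑ j ∈ range m, (d : ℝ) ^ j, by positivity, ?_⟩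
  intro Ω _ _ _ hchar p q hr R hR hF X₀ μ hX hμ hper hm0 hm1 n hn hpos
  have : CharZero Ω := by
    refine charZero_of_inj_zero fun n hn => ?_
    by_contra hne
    have h1 := hchar n hne
    rw [hn, norm_zero] at h1
    exact zero_ne_one h1
  obtain ⟨P, Q, hr', hit, hjv⟩ := hIT Ω d hd p q hr m
  have hb := iter_bounds (bK d p q) d R hF m
  have hmlt : mlt (d ^ m) P Q 1 X₀ μ = mlt d p q m X₀ μ := by
    unfold mlt
    rw [Finset.prod_range_one, Function.iterate_zero, id, hjv]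
  have hpos' : 0 < ((n : ℝ) - 3) * (-Real.log ‖mlt (d ^ m) P Q 1 X₀ μ‖) - C₁ * (R * ∑ j ∈ range m, (d : ℝ) ^ j) := by
    rw [hmlt]
    convert hpos using 1
    ring
  obtain ⟨Y', hY', hJ, hwd, hlog⟩ := hal Ω hchar P Q hr' (R * ∑ j ∈ range m, (d : ℝ) ^ j) (by positivity)
    (fun Z => by rw [hit]; exact hb Z) X₀ μ hX hμ (by rw [hit]; exact hper) (by rw [hmlt]; exact hm0)
    (by rw [hmlt]; exact hm1) n hpos'
  rw [hjv, Finset.prod_eq_zero_iff] at hJ
  obtain ⟨a, ha, hJa⟩ := hJ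
  rw [Finset.mem_range] at ha
  have hfun : bK (d ^ m) P Q = (bK d p q)^[m] := funext hit
  have hiter : (bK d p q)^[m * n - a] ((bK d p q)^[a] Y') = (bK (d ^ m) P Q)^[n] Y' := by
    rw [← Function.iterate_add_apply, hfun, ← Function.iterate_mul]
    congr 2
    have : a ≤ m * n := le_trans ha.le (Nat.le_mul_of_pos_right m hn)
    omega
  refine ⟨(bK d p q)^[a] Y', a, ?_, hJa, ha, ?_, ?_⟩
  · intro h0
    have h1 := (iter_bounds (bK d p q) d R hF a Y').1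
    rw [h0, norm_zero] at h1
    have h2 : 0 < ‖Y'‖ := norm_pos_iff.2 hY'
    have h3 : 0 < Real.exp (-(R * ∑ j ∈ range a, (d : ℝ) ^ j)) * ‖Y'‖ ^ d ^ a := by positivity
    linarith
  · rw [hiter]
    exact hwd
  · rw [hiter]
    rw [hmlt] at hlog
    refine hlog.trans (le_of_eq ?_)
    ring

end Pool.Agent.Q150.OP
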