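import Pool.Agent.Q103.OP.Defs
import Pool.Agent.Y706.BI.FinB

set_option autoImplicit false

/-!
# Project OP of helper103, job EMB (helper150): an invariant quadratic differential gives a Lattes map
-/

open Polynomial

namespace Pool.Agent.Q150.OP

open Pool.Agent.W277.UB Pool.Agent.W277.UH Pool.Agent.Q103.OP

universe u v

theorem exists_embed (L : Type u) [Field L] [CharZero L] [Countable L] : Nonempty (L →+* ℂ) := by
  obtain ⟨s, hs⟩ := exists_isTranscendenceBasis ℚ L
  obtain ⟨κ, x, hx⟩ := exists_isTranscendenceBasis' ℚ ℂ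
  have h1 := IsAlgClosed.cardinal_le_max_transcendence_basis' x hx
  have h2 : Cardinal.aleph0 ≤ Cardinal.mk κ := by
    by_contra hcon
    rw [not_le] at hcon
    have h3 : Cardinal.mk ℂ ≤ Cardinal.aleph0 :=
      h1.trans (max_le (max_le (Cardinal.mk_le_aleph0_iff.2 inferInstance) hcon.le) le_rfl)
    rw [Cardinal.mk_complex] at h3
    exact absurd h3 (not_le.2 Cardinal.aleph0_lt_continuum)
  have h3 : Cardinal.lift.{0} (Cardinal.mk s) ≤ Cardinal.lift.{u} (Cardinal.mk κ) := by
    have h4 : Cardinal.mk s ≤ Cardinal.aleph0 := Cardinal.mk_le_aleph0_iff.2 inferInstance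
    calc Cardinal.lift.{0} (Cardinal.mk s) ≤ Cardinal.lift.{0} Cardinal.aleph0.{u} := Cardinal.lift_le.2 h4
      _ = Cardinal.lift.{u} Cardinal.aleph0.{0} := by simp
      _ ≤ _ := Cardinal.lift_le.2 h2
  obtain ⟨f⟩ := Cardinal.lift_mk_le'.1 h3
  let a : s → ℂ := fun i => x (f i)
  have ha : AlgebraicIndependent ℚ a := hx.1.comp f f.injective
  let e := hs.1.aevalEquiv
  let g : Algebra.adjoin ℚ (Set.range (Subtype.val : s → L)) →+* ℂ :=
    (MvPolynomial.aeval a : MvPolynomial s ℚ →ₐ[ℚ] ℂ).toRingHom.comp (e.symm : _ ≃+* _).toRingHom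
  have hg : Function.Injective g := by
    have h5 : Function.Injective (MvPolynomial.aeval a : MvPolynomial s ℚ →ₐ[ℚ] ℂ) := ha
    exact h5.comp e.symm.injective
  let _ : Algebra (Algebra.adjoin ℚ (Set.range (Subtype.val : s → L))) ℂ := g.toAlgebra
  have : FaithfulSMul (Algebra.adjoin ℚ (Set.range (Subtype.val : s → L))) ℂ :=
    (faithfulSMul_iff_algebraMap_injective _ _).2 hg
  have : Algebra.IsAlgebraic (Algebra.adjoin ℚ (Set.range (Subtype.val : s → L))) L := hs.isAlgebraic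
  exact ⟨(IsAlgClosed.lift : L →ₐ[Algebra.adjoin ℚ (Set.range (Subtype.val : s → L))] ℂ).toRingHom⟩

/-- a countable set is contained in a countable algebraically closed subfield -/
theorem exists_sub (K : Type u) [Field K] [CharZero K] [IsAlgClosed K] (S : Set K) (hS : S.Countable) :
    ∃ (L : Type u) (_ : Field L) (_ : IsAlgClosed L) (_ : CharZero L) (_ : Countable L) (σ : L →+* K),
      ∀ x ∈ S, ∃ y, σ y = x := by
  let D := Subfield.closure S
  have hD : Cardinal.mk D ≤ Cardinal.aleph0 := by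
    refine (Subfield.cardinalMk_closure_le_max S).trans (max_le ?_ le_rfl)
    exact Cardinal.mk_le_aleph0_iff.2 hS.to_subtype
  have h1 := Algebra.IsAlgebraic.cardinalMk_le_max D (algebraicClosure D K)
  have h2 : Cardinal.mk (algebraicClosure D K) ≤ Cardinal.aleph0 := h1.trans (max_le hD le_rfl)
  refine ⟨algebraicClosure D K, inferInstance, IsAlgClosure.isAlgClosed D, inferInstance,
    Cardinal.mk_le_aleph0_iff.1 h2, (algebraMap (algebraicClosure D K) K), fun x hx => ?_⟩
  exact ⟨algebraMap D (algebraicClosure D K) ⟨x, Subfield.subset_closure hx⟩, rfl⟩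

section transfer

variable {L : Type u} {M : Type v} [Field L] [Field M] (σ : L →+* M)

lemma Wr_map (p q : L[X]) : Wr (p.map σ) (q.map σ) = (Wr p q).map σ := by
  unfold Wr
  simp [Polynomial.derivative_map]

variable [DecidableEq L] [DecidableEq M]

lemma qd_map (P : Finset L) (a : L → L) (a' : M → M) (ha : ∀ x ∈ P, a' (σ x) = σ (a x)) (z : L) :
    qd (P.image σ) a' (σ z) = σ (qd P a z) := by
  unfold qd
  rw [Finset.sum_image (fun x _ y _ h => σ.injective h), map_sum]
  refine Finset.sum_congr rfl fun x hx => ?_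
  rw [ha x hx, map_div₀, map_sub]

lemma Qd_map (P : Finset L) (a : L → L) (a' : M → M) (ha : ∀ x ∈ P, a' (σ x) = σ (a x)) :
    Qd (P.image σ) a' ↔ Qd P a := by
  have h0 : ∑ x ∈ P.image σ, a' x = σ (∑ x ∈ P, a x) := by
    rw [Finset.sum_image (fun x _ y _ h => σ.injective h), map_sum]
    exact Finset.sum_congr rfl fun x hx => ha x hx
  have h1 : ∑ x ∈ P.image σ, a' x * x = σ (∑ x ∈ P, a x * x) := by
    rw [Finset.sum_image (fun x _ y _ h => σ.injective h), map_sum]
    refine Finset.sum_congr rfl fun x hx => ?_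
    rw [ha x hx, map_mul]
  have h2 : ∑ x ∈ P.image σ, a' x * x ^ 2 = σ (∑ x ∈ P, a x * x ^ 2) := by
    rw [Finset.sum_image (fun x _ y _ h => σ.injective h), map_sum]
    refine Finset.sum_congr rfl fun x hx => ?_
    rw [ha x hx, map_mul, map_pow]
  unfold Qd
  rw [h0, h1, h2, map_eq_zero, map_eq_zero, map_eq_zero]

lemma push_map [IsAlgClosed L] (p q : L[X]) (P : Finset L) (a : L → L) (a' : M → M)
    (ha : ∀ x ∈ P, a' (σ x) = σ (a x)) (w : L) :
    push (p.map σ) (q.map σ) (P.image σ) a' (σ w) = σ (push p q P a w) := by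
  unfold push
  have h1 : p.map σ - C (σ w) * q.map σ = (p - C w * q).map σ := by
    simp
  rw [h1]
  have h2 : ((p - C w * q).map σ).roots = (p - C w * q).roots.map σ :=
    (IsAlgClosed.splits (p - C w * q)).roots_map σ
  rw [h2, Multiset.map_map, map_multiset_sum, Multiset.map_map]
  congr 1
  refine Multiset.map_congr rfl fun z _ => ?_
  simp only [Function.comp]
  rw [qd_map σ P a a' ha, Wr_map, eval_map_apply, eval_map_apply, map_div₀, map_pow, map_div₀, map_pow]

/-- Pcf descends -/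
lemma pcf_down {d : ℕ} {p q : L[X]} {P : Finset L} (h : Pcf d (p.map σ) (q.map σ) (P.image σ)) : Pcf d p q P := by
  have hev : ∀ (r : L[X]) (x : L), (r.map σ).eval (σ x) = σ (r.eval x) := fun r x => eval_map_apply ..
  have key : ∀ x : L, ((q.map σ).eval (σ x) ≠ 0 ∧ (p.map σ).eval (σ x) / (q.map σ).eval (σ x) ∈ P.image σ) →
      q.eval x ≠ 0 ∧ p.eval x / q.eval x ∈ P := by
    rintro x ⟨h1, h2⟩
    rw [hev] at h1
    rw [hev, hev, ← map_div₀, Finset.mem_image] at h2
    obtain ⟨y, hy, hy2⟩ := h2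
    rw [σ.injective hy2] at hy
    exact ⟨fun h0 => h1 (by rw [h0, map_zero]), hy⟩
  refine ⟨h.two_le, ?_, ?_, ?_, ?_, ?_, fun x hx => key x (h.inv _ (Finset.mem_image_of_mem _ hx)), fun x hx => key x (h.crit _ ?_), ?_⟩
  · have := h.degp
    rwa [natDegree_map] at this
  · have := h.degq
    rwa [natDegree_map] at this
  · have := h.monic
    exact Polynomial.monic_of_injective σ.injective this
  · exact (Polynomial.isCoprime_map σ).1 h.cop
  · have := h.degW
    rwa [Wr_map, natDegree_map] at this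
  · rw [Wr_map, hev, hx, map_zero]
  · intro h1
    have := h.inf
    rw [coeff_map] at this
    exact this (Finset.mem_image_of_mem _ h1)

/-- Pcf ascends -/
lemma pcf_up [IsAlgClosed L] {d : ℕ} {p q : L[X]} {P : Finset L} (h : Pcf d p q P) :
    Pcf d (p.map σ) (q.map σ) (P.image σ) := by
  have hev : ∀ (r : L[X]) (x : L), (r.map σ).eval (σ x) = σ (r.eval x) := fun r x => eval_map_apply ..
  have key : ∀ x : L, (q.eval x ≠ 0 ∧ p.eval x / q.eval x ∈ P) →
      ((q.map σ).eval (σ x) ≠ 0 ∧ (p.map σ).eval (σ x) / (q.map σ).eval (σ x) ∈ P.image σ) := by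
    rintro x ⟨h1, h2⟩
    rw [hev, hev, ← map_div₀]
    exact ⟨fun h0 => h1 ((map_eq_zero σ).1 h0), Finset.mem_image_of_mem _ h2⟩
  refine ⟨h.two_le, ?_, ?_, ?_, ?_, ?_, ?_, ?_, ?_⟩
  · rw [natDegree_map]
    exact h.degp
  · rw [natDegree_map]
    exact h.degq
  · exact h.monic.map σ
  · exact (Polynomial.isCoprime_map σ).2 h.cop
  · rw [Wr_map, natDegree_map]
    exact h.degW
  · intro x hx
    rw [Finset.mem_image] at hx
    obtain ⟨y, hy, rfl⟩ := hx
    exact key y (h.inv y hy)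
  · intro x hx
    rw [Wr_map] at hx
    have hW0 : Wr p q ≠ 0 := by
      intro h0
      have := h.degW
      rw [h0, natDegree_zero] at this
      have := h.two_le
      omega
    have h1 : x ∈ ((Wr p q).map σ).roots := by
      rw [mem_roots ((Polynomial.map_ne_zero_iff σ.injective).2 hW0)]
      exact hx
    rw [(IsAlgClosed.splits (Wr p q)).roots_map σ, Multiset.mem_map] at h1
    obtain ⟨y, hy, rfl⟩ := h1
    rw [mem_roots hW0] at hy
    exact key y (h.crit y hy)
  · intro h1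
    rw [coeff_map, Finset.mem_image] at h1
    obtain ⟨y, hy, hy2⟩ := h1
    rw [σ.injective hy2] at hy
    exact h.inf hy

end transfer

section identity

variable {K : Type u} [Field K] [DecidableEq K]

/-- the numerator of the quadratic differential -/
noncomputable def nu (P : Finset K) (a : K → K) : K[X] := ∑ x ∈ P, C (a x) * ∏ y ∈ P.erase x, (X - C y)

/-- the denominator -/
noncomputable def de (P : Finset K) : K[X] := ∏ x ∈ P, (X - C x)

/-- the identity of a Lattes map with these data -/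
def LatE (d : ℕ) (p q : K[X]) (P : Finset K) (a : K → K) : Prop :=
  hc P.card (nu P a) p q * Wr p q ^ 2 * de P = C (d : K) * nu P a * hc P.card (de P) p q * q ^ 4

lemma nu_eval (P : Finset K) (a : K → K) (z : K) :
    (nu P a).eval z = ∑ x ∈ P, a x * ∏ y ∈ P.erase x, (z - y) := by
  unfold nu
  simp [eval_finsetSum, eval_prod]

lemma de_eval (P : Finset K) (z : K) : (de P).eval z = ∏ x ∈ P, (z - x) := by
  unfold de
  simp [eval_prod]

lemma nu_eval_mem (P : Finset K) (a : K → K) {x : K} (hx : x ∈ P) :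
    (nu P a).eval x = a x * ∏ y ∈ P.erase x, (x - y) := by
  rw [nu_eval, Finset.sum_eq_single x]
  · intro y hy hyx
    have h1 : x ∈ P.erase y := Finset.mem_erase.2 ⟨Ne.symm hyx, hx⟩
    rw [Finset.prod_eq_zero h1 (sub_self x), mul_zero]
  · intro h
    exact absurd hx h

lemma prod_erase_ne (P : Finset K) (x : K) : ∏ y ∈ P.erase x, (x - y) ≠ 0 := by
  rw [Finset.prod_ne_zero_iff]
  intro y hy
  exact sub_ne_zero.2 (Ne.symm (Finset.ne_of_mem_erase hy))

lemma de_eval_ne (P : Finset K) {z : K} (hz : z ∉ P) : (de P).eval z ≠ 0 := by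
  rw [de_eval, Finset.prod_ne_zero_iff]
  intro y hy h
  exact hz (by rw [sub_eq_zero.1 h]; exact hy)

lemma qd_eq (P : Finset K) (a : K → K) {z : K} (hz : z ∉ P) : qd P a z = (nu P a).eval z / (de P).eval z := by
  rw [eq_div_iff (de_eval_ne P hz), de_eval, nu_eval]
  unfold qd
  rw [Finset.sum_mul]
  refine Finset.sum_congr rfl fun x hx => ?_
  have h1 : z - x ≠ 0 := sub_ne_zero.2 fun h => hz (by rw [h]; exact hx)
  rw [← Finset.mul_prod_erase P _ hx, div_mul_eq_mul_div, div_eq_iff h1]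
  ring

lemma nu_ne (P : Finset K) (a : K → K) (h : ∃ x ∈ P, a x ≠ 0) : nu P a ≠ 0 := by
  obtain ⟨x, hx, hax⟩ := h
  intro h0
  have h1 := nu_eval_mem P a hx
  rw [h0, eval_zero] at h1
  exact mul_ne_zero hax (prod_erase_ne P x) h1.symm

lemma de_ne (P : Finset K) : de P ≠ 0 := by
  unfold de
  rw [Finset.prod_ne_zero_iff]
  intro x _
  exact X_sub_C_ne_zero x

lemma de_deg (P : Finset K) : (de P).natDegree ≤ P.card := by
  unfold de
  rw [natDegree_prod_of_monic _ _ fun x _ => monic_X_sub_C x]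
  simp

lemma nu_deg (P : Finset K) (a : K → K) : (nu P a).natDegree ≤ P.card := by
  unfold nu
  refine natDegree_sum_le_of_forall_le _ _ fun x hx => ?_
  refine (natDegree_C_mul_le _ _).trans ?_
  rw [natDegree_prod_of_monic _ _ fun y _ => monic_X_sub_C y]
  simp only [natDegree_X_sub_C, Finset.sum_const, smul_eq_mul, mul_one]
  exact Finset.card_le_card (Finset.erase_subset _ _)

/-- the identity gives a Lattes map -/
lemma lat_of (d : ℕ) (p q : K[X]) (P : Finset K) (a : K → K) (h : ∃ x ∈ P, a x ≠ 0)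
    (hL : LatE d p q P a) : Lat d p q :=
  ⟨P.card, nu P a, de P, nu_ne P a h, de_ne P, nu_deg P a, de_deg P, hL⟩

end identity

section idmap

variable {L : Type u} {M : Type v} [Field L] [Field M] [DecidableEq L] [DecidableEq M] (σ : L →+* M)

lemma de_map (P : Finset L) : de (P.image σ) = (de P).map σ := by
  unfold de
  rw [Finset.prod_image (fun x _ y _ h => σ.injective h), Polynomial.map_prod]
  refine Finset.prod_congr rfl fun x _ => ?_
  simp

lemma nu_map (P : Finset L) (a : L → L) (a' : M → M) (ha : ∀ x ∈ P, a' (σ x) = σ (a x)) :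
    nu (P.image σ) a' = (nu P a).map σ := by
  unfold nu
  rw [Finset.sum_image (fun x _ y _ h => σ.injective h), Polynomial.map_sum]
  refine Finset.sum_congr rfl fun x hx => ?_
  rw [ha x hx, Polynomial.map_mul, map_C, Polynomial.map_prod]
  congr 1
  have h1 : (P.image σ).erase (σ x) = (P.erase x).image σ := (Finset.image_erase σ.injective P x).symm
  rw [h1, Finset.prod_image (fun x _ y _ h => σ.injective h)]
  refine Finset.prod_congr rfl fun y _ => ?_
  simp

lemma latE_map (d : ℕ) (p q : L[X]) (P : Finset L) (a : L → L) (a' : M → M)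
    (ha : ∀ x ∈ P, a' (σ x) = σ (a x)) :
    LatE d (p.map σ) (q.map σ) (P.image σ) a' ↔ LatE d p q P a := by
  unfold LatE
  rw [nu_map σ P a a' ha, de_map, Wr_map, Finset.card_image_of_injective _ σ.injective,
    ← Pool.Agent.Y706.BI.hc_map, ← Pool.Agent.Y706.BI.hc_map]
  have h1 : (C (d : M) : M[X]) = (C (d : L) : L[X]).map σ := by simp
  rw [h1, ← Polynomial.map_pow, ← Polynomial.map_pow, ← Polynomial.map_mul, ← Polynomial.map_mul, ← Polynomial.map_mul,
    ← Polynomial.map_mul, ← Polynomial.map_mul]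
  exact (Polynomial.map_injective σ σ.injective).eq_iff

end idmap

/-- homogeneous evaluation of a polynomial of degree at most `n` -/
lemma hev_eq {K : Type u} [Field K] (n : ℕ) (A : K[X]) (hA : A.natDegree ≤ n) (x y : K) (hy : y ≠ 0) :
    hev n A (x, y) = y ^ n * A.eval (x / y) := by
  unfold hev
  rw [eval_eq_sum_range' (Nat.lt_succ_of_le hA), Finset.mul_sum]
  refine Finset.sum_congr rfl fun i hi => ?_
  rw [Finset.mem_range] at hi
  simp only
  have h1 : y ^ n = y ^ (n - i) * y ^ i := by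
    rw [← pow_add]
    congr 1
    omega
  rw [h1, div_pow]
  field_simp

/-- the complex case -/
theorem emb_complex (hRES : S_RES.{0}) (hANA : S_ANA) (d : ℕ) (p q : ℂ[X]) (P : Finset ℂ)
    (hP : Pcf d p q P) (a : ℂ → ℂ) (ha : ∃ x ∈ P, a x ≠ 0) (hq : Qd P a) (W : Set ℂ) (hW : W.Infinite)
    (hW1 : ∀ w ∈ W, w ∉ P) (hW2 : ∀ w ∈ W, w ≠ p.coeff d) (hpush : ∀ w ∈ W, push p q P a w = qd P a w) :
    LatE d p q P a := by
  obtain ⟨T, hT⟩ := hRES ℂ d p q P hP
  obtain ⟨h1, h2, -⟩ := hT a hq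
  have h3 : nu P (T a) = nu P a := by
    refine Polynomial.eq_of_infinite_eval_eq _ _ (hW.mono fun w hw => ?_)
    have h4 := h2 w (hW1 w hw) (hW2 w hw)
    rw [hpush w hw, qd_eq P a (hW1 w hw), qd_eq P (T a) (hW1 w hw),
      div_left_inj' (de_eval_ne P (hW1 w hw))] at h4
    exact h4.symm
  have h4 : ∀ w, w ∉ P → w ≠ p.coeff d → push p q P a w = qd P a w := by
    intro w hw hw2
    rw [h2 w hw hw2, qd_eq P _ hw, qd_eq P _ hw, h3]
  obtain ⟨E, hE⟩ := hANA d p q P hP a ha hq h4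
  have hq0 : q ≠ 0 := hP.monic.ne_zero
  -- a nonconstant map takes every value finitely often
  have hfin : ∀ w ∈ P, (p - C w * q) ≠ 0 := by
    intro w hw h0
    have h5 : p = C w * q := sub_eq_zero.1 h0
    have h6 : p.coeff d = w := by
      rw [h5, coeff_C_mul]
      have h7 : q.coeff d = 1 := by
        have := hP.monic.coeff_natDegree
        rwa [hP.degq] at this
      rw [h7, mul_one]
    exact hP.inf (by rw [h6]; exact hw)
  unfold LatE
  refine Polynomial.eq_of_infinite_eval_eq _ _ ?_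
  have hbad : ((E : Set ℂ) ∪ (P : Set ℂ) ∪ {z | q.IsRoot z} ∪ ⋃ w ∈ P, {z | (p - C w * q).IsRoot z}).Finite := by
    refine ((E.finite_toSet.union P.finite_toSet).union (Polynomial.finite_setOfPred_isRoot hq0)).union ?_
    exact P.finite_toSet.biUnion fun w hw => Polynomial.finite_setOfPred_isRoot (hfin w hw)
  refine hbad.infinite_compl.mono fun z hz => ?_
  simp only [Set.mem_compl_iff, Set.mem_union, not_or, Finset.mem_coe, Set.mem_ofPred_eq, Set.mem_iUnion, not_exists] at hz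
  obtain ⟨⟨⟨hz1, hz2⟩, hz3⟩, hz4⟩ := hz
  have hz3' : q.eval z ≠ 0 := hz3
  have hz5 : p.eval z / q.eval z ∉ P := by
    intro h
    refine hz4 _ h ?_
    rw [IsRoot.def, eval_sub, eval_mul, eval_C, div_mul_cancel₀ _ hz3', sub_self]
  have h5 := hE z hz1
  rw [qd_eq P a hz2, qd_eq P a hz5] at h5
  have hd1 := de_eval_ne P hz2
  have hd2 := de_eval_ne P hz5
  simp only [Set.mem_ofPred_eq, eval_mul, eval_pow, eval_C]
  rw [hc_eval, hc_eval, hev_eq _ _ (nu_deg P a) _ _ hz3', hev_eq _ _ (de_deg P) _ _ hz3']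
  field_simp at h5
  linear_combination (q.eval z ^ P.card) * h5

/-- **EMB** -/
theorem t_EMB (hRES : S_RES.{0}) (hANA : S_ANA) : S_EMB.{u} := by
  classical
  intro K _ _ _ d p q P hP a ha hq hpush
  -- a countable subfield
  let S : Set K := (Set.range p.coeff ∪ Set.range q.coeff) ∪ ((P : Set K) ∪ (a '' (P : Set K)))
  have hS : S.Countable := by
    refine ((Set.countable_range _).union (Set.countable_range _)).union
      (P.finite_toSet.countable.union (P.finite_toSet.image a).countable)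
  obtain ⟨L, _, _, _, _, σ, hσ⟩ := exists_sub K S hS
  obtain ⟨τ⟩ := exists_embed L
  have hp : p ∈ Polynomial.lifts σ := by
    rw [Polynomial.lifts_iff_coeff_lifts]
    intro n
    exact hσ _ (Or.inl (Or.inl ⟨n, rfl⟩))
  have hq' : q ∈ Polynomial.lifts σ := by
    rw [Polynomial.lifts_iff_coeff_lifts]
    intro n
    exact hσ _ (Or.inl (Or.inr ⟨n, rfl⟩))
  rw [Polynomial.mem_lifts] at hp hq'
  obtain ⟨p₀, rfl⟩ := hp
  obtain ⟨q₀, rfl⟩ := hq'
  let P₀ : Finset L := P.preimage σ σ.injective.injOn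
  have hP₀ : P₀.image σ = P := by
    ext x
    rw [Finset.mem_image]
    constructor
    · rintro ⟨y, hy, rfl⟩
      exact Finset.mem_preimage.1 hy
    · intro hx
      obtain ⟨y, hy⟩ := hσ x (Or.inr (Or.inl hx))
      exact ⟨y, Finset.mem_preimage.2 (by rw [hy]; exact hx), hy⟩
  have hex : ∀ x : L, ∃ y : L, x ∈ P₀ → σ y = a (σ x) := by
    intro x
    by_cases hx : x ∈ P₀
    · obtain ⟨y, hy⟩ := hσ (a (σ x)) (Or.inr (Or.inr ⟨σ x, Finset.mem_preimage.1 hx, rfl⟩))
      exact ⟨y, fun _ => hy⟩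
    · exact ⟨0, fun h => absurd h hx⟩
  choose a₀ ha₀ using hex
  have ha₀' : ∀ x ∈ P₀, a (σ x) = σ (a₀ x) := fun x hx => (ha₀ x hx).symm
  rw [← hP₀] at hP hq
  have hpcf : Pcf d p₀ q₀ P₀ := pcf_down σ hP
  have hqd : Qd P₀ a₀ := (Qd_map σ P₀ a₀ a ha₀').1 hq
  have hne : ∃ x ∈ P₀, a₀ x ≠ 0 := by
    obtain ⟨x, hx, hax⟩ := ha
    rw [← hP₀, Finset.mem_image] at hx
    obtain ⟨y, hy, rfl⟩ := hx
    refine ⟨y, hy, fun h0 => hax ?_⟩
    rw [ha₀' y hy, h0, map_zero]
  have hpush₀ : ∀ w, w ∉ P₀ → w ≠ p₀.coeff d → push p₀ q₀ P₀ a₀ w = qd P₀ a₀ w := by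
    intro w hw hw2
    apply σ.injective
    rw [← push_map σ p₀ q₀ P₀ a₀ a ha₀', ← qd_map σ P₀ a₀ a ha₀', hP₀]
    refine hpush _ ?_ ?_
    · intro h
      exact hw (Finset.mem_preimage.2 h)
    · rw [coeff_map]
      exact fun h => hw2 (σ.injective h)
  -- the complex side
  have hexa : ∀ z : ℂ, ∃ y : ℂ, ∀ x ∈ P₀, τ x = z → y = τ (a₀ x) := by
    intro z
    by_cases h : ∃ x ∈ P₀, τ x = z
    · obtain ⟨x, -, hx2⟩ := h
      refine ⟨τ (a₀ x), fun x' _ hx' => ?_⟩
      rw [τ.injective (hx2.trans hx'.symm)]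
    · exact ⟨0, fun x hx hx2 => absurd ⟨x, hx, hx2⟩ h⟩
  choose a' ha' using hexa
  have ha'' : ∀ x ∈ P₀, a' (τ x) = τ (a₀ x) := fun x hx => ha' (τ x) x hx rfl
  have hinf : ({w : L | w ∉ P₀ ∧ w ≠ p₀.coeff d}).Infinite := by
    have h1 : ((P₀ : Set L) ∪ {p₀.coeff d}).Finite := P₀.finite_toSet.union (Set.finite_singleton _)
    have : Infinite L := IsAlgClosed.instInfinite
    refine h1.infinite_compl.mono fun w hw => ?_
    simp only [Set.mem_compl_iff, Set.mem_union, not_or, Finset.mem_coe, Set.mem_singleton_iff] at hw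
    exact hw
  have hE : LatE d (p₀.map τ) (q₀.map τ) (P₀.image τ) a' := by
    refine emb_complex hRES hANA d _ _ _ (pcf_up τ hpcf) a' ?_ ((Qd_map τ P₀ a₀ a' ha'').2 hqd)
      (τ '' {w : L | w ∉ P₀ ∧ w ≠ p₀.coeff d}) (hinf.image τ.injective.injOn) ?_ ?_ ?_
    · obtain ⟨x, hx, hax⟩ := hne
      refine ⟨τ x, Finset.mem_image_of_mem _ hx, ?_⟩
      rw [ha'' x hx]
      exact fun h => hax ((map_eq_zero τ).1 h)
    · rintro _ ⟨w, hw, rfl⟩ h
      rw [Finset.mem_image] at h
      obtain ⟨y, hy, hy2⟩ := h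
      rw [τ.injective hy2] at hy
      exact hw.1 hy
    · rintro _ ⟨w, hw, rfl⟩ h
      rw [coeff_map] at h
      exact hw.2 (τ.injective h)
    · rintro _ ⟨w, hw, rfl⟩
      rw [push_map τ p₀ q₀ P₀ a₀ a' ha'', qd_map τ P₀ a₀ a' ha'', hpush₀ w hw.1 hw.2]
  have hE₀ : LatE d p₀ q₀ P₀ a₀ := (latE_map τ d p₀ q₀ P₀ a₀ a' ha'').1 hE
  have hEK : LatE d (p₀.map σ) (q₀.map σ) (P₀.image σ) a := (latE_map σ d p₀ q₀ P₀ a₀ a ha₀').2 hE₀
  refine lat_of d _ _ (P₀.image σ) a ?_ hEK
  rw [hP₀]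
  exact ha

end Pool.Agent.Q150.OP
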