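import Pool.Agent.Q103.OP.Defs

set_option autoImplicit false

/-!
# Project OP of helper103, job SUN (helper150): the unit equation over a function field
-/

namespace Pool.Agent.Q150.OP

open Pool.Agent.W277.UB Pool.Agent.Q103.OP Finset

universe u v w

section

variable {k : Type v} {K : Type u} [Field k] [Field K] [Algebra k K] (Q : PlaceData.{w} k K)

/-- the order of `D x` if `x` has order `m` -/
lemma ord_D {v : Q.Pl} {x : K} (hx : x ≠ 0) (hD : Q.D x ≠ 0) : Q.ord v x - 1 - Q.loss v ≤ Q.ord v (Q.D x) := by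
  have h := Q.D_ord v x 1 (Q.ord v x) hx (by simpa using hD) le_rfl
  simpa using h

lemma ord_D' {v : Q.Pl} {x : K} (hx : x ≠ 0) (hD : Q.D x ≠ 0) (h0 : 0 ≤ Q.ord v x) :
    -Q.loss v ≤ Q.ord v (Q.D x) := by
  have h := Q.D_ord' v x 1 hx (by simpa using hD) h0
  simpa using h

open Classical in
/-- the local inequality -/
lemma local_ineq (S : Finset Q.Pl) {x : K} (hx : x ≠ 0) (hx1 : x ≠ 1) (hD : Q.D x ≠ 0)
    (hS : ∀ v, v ∉ S → Q.ord v x = 0 ∧ Q.ord v (1 - x) = 0) (v : Q.Pl) :
    Q.pole v x - (if v ∈ S then 1 else 0) - Q.loss v ≤ Q.ord v (Q.D x / (x * (1 - x))) := by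
  have hy : 1 - x ≠ 0 := sub_ne_zero.2 (Ne.symm hx1)
  have hDy : Q.D (1 - x) ≠ 0 := by
    rw [map_sub, Derivation.map_one_eq_zero, zero_sub]
    exact neg_ne_zero.2 hD
  have hDy' : Q.ord v (Q.D (1 - x)) = Q.ord v (Q.D x) := by
    rw [map_sub, Derivation.map_one_eq_zero, zero_sub]
    exact PlaceData.ord_neg hD
  rw [PlaceData.ord_div hD (mul_ne_zero hx hy), Q.ord_mul v x (1 - x) hx hy, PlaceData.pole_of_ne hx]
  have hl := Q.loss_nonneg v
  have e1 : x + (1 - x) = 1 := by ring
  have hone : Q.ord v (1 : K) = 0 := PlaceData.ord_one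
  have hadd : ∀ m : ℤ, m ≤ Q.ord v x → m ≤ Q.ord v (1 - x) → m ≤ 0 := by
    intro m h1 h2
    have h3 := Q.ord_add v x (1 - x) m hx hy (by rw [e1]; exact one_ne_zero) h1 h2
    rwa [e1, hone] at h3
  by_cases hv : v ∈ S
  · rw [if_pos hv]
    have hA := ord_D Q (v := v) hx hD
    have hA' := ord_D Q (v := v) hy hDy
    rw [hDy'] at hA'
    rcases lt_trichotomy (Q.ord v x) 0 with h | h | h
    · -- a pole
      have h2 : Q.ord v (1 - x) ≤ Q.ord v x := by
        by_contra hc
        push Not at hc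
        have h3 := Q.ord_add v 1 (-(1 - x)) (min 0 (Q.ord v (1 - x))) one_ne_zero (neg_ne_zero.2 hy)
          (by
            have : (1 : K) + -(1 - x) = x := by ring
            rw [this]
            exact hx) (by rw [hone]; exact min_le_left _ _) (by rw [PlaceData.ord_neg hy]; exact min_le_right _ _)
        have h4 : (1 : K) + -(1 - x) = x := by ring
        rw [h4] at h3
        rcases le_total 0 (Q.ord v (1 - x)) with h5 | h5
        · rw [min_eq_left h5] at h3
          linarith
        · rw [min_eq_right h5] at h3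
          linarith
      have h3 : max 0 (-Q.ord v x) = -Q.ord v x := max_eq_right (by linarith)
      rw [h3]
      linarith
    · have h3 : max 0 (-Q.ord v x) = 0 := by rw [h]; simp
      rw [h3, h]
      have h4 := ord_D' Q (v := v) hx hD h.ge
      rcases le_total (Q.ord v (1 - x)) 0 with h5 | h5
      · linarith
      · linarith
    · have h3 : max 0 (-Q.ord v x) = 0 := max_eq_left (by linarith)
      rw [h3]
      have h5 : Q.ord v (1 - x) ≤ 0 := by
        by_contra hc
        push Not at hc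
        have := hadd 1 (by omega) (by omega)
        omega
      linarith
  · rw [if_neg hv]
    obtain ⟨h1, h2⟩ := hS v hv
    have h4 := ord_D' Q (v := v) hx hD h1.ge
    rw [h1, h2]
    simp only [neg_zero, max_self]
    linarith

end

/-- **SUN** -/
theorem t_SUN : S_SUN.{v, u, w} := by
  classical
  intro k K _ _ _ _ Q S
  refine ⟨((∑ v ∈ S, Q.wt v + Q.lossT : ℤ) : ℝ), fun x hx hx1 hS S' => ?_⟩
  have hw : ∀ T : Finset Q.Pl, 0 ≤ ∑ v ∈ T, Q.wt v := fun T => Finset.sum_nonneg fun v _ => Q.wt_nonneg v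
  have hl : 0 ≤ Q.lossT := le_trans (Finset.sum_nonneg fun v _ => mul_nonneg (Q.wt_nonneg v) (Q.loss_nonneg v)) Q.loss_sum
  have key : ∑ v ∈ S', Q.wt v * Q.pole v x ≤ ∑ v ∈ S, Q.wt v + Q.lossT := by
    by_cases hD : Q.D x = 0
    · obtain ⟨c, hc⟩ := Q.D_ker x hD
      have hc0 : c ≠ 0 := by
        rintro rfl
        rw [map_zero] at hc
        exact hx hc.symm
      have h1 : ∑ v ∈ S', Q.wt v * Q.pole v x = 0 := by
        refine Finset.sum_eq_zero fun v _ => ?_
        rw [PlaceData.pole_of_ne hx, ← hc, Q.ord_alg v c hc0]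
        simp
      rw [h1]
      have := hw S
      linarith
    · have hy : 1 - x ≠ 0 := sub_ne_zero.2 (Ne.symm hx1)
      have hu : Q.D x / (x * (1 - x)) ≠ 0 := div_ne_zero hD (mul_ne_zero hx hy)
      have hloc := local_ineq Q S hx hx1 hD hS
      set T : Finset Q.Pl := S ∪ Q.lossS ∪ S' with hT
      have h1 := Q.prod_formula _ hu T (by
        intro v hv
        have h2 := hloc v
        have h3 : v ∉ S := fun h => hv (by rw [hT]; exact Finset.mem_union_left _ (Finset.mem_union_left _ h))
        have h4 : v ∉ Q.lossS := fun h => hv (by rw [hT]; exact Finset.mem_union_left _ (Finset.mem_union_right _ h))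
        rw [if_neg h3, Q.loss_supp v h4] at h2
        have := Q.pole_nonneg v x
        linarith)
      have h2 : ∑ v ∈ T, Q.wt v * (Q.pole v x - (if v ∈ S then 1 else 0) - Q.loss v) ≤ 0 :=
        le_trans (Finset.sum_le_sum fun v _ => mul_le_mul_of_nonneg_left (hloc v) (Q.wt_nonneg v)) h1
      have h3 : ∑ v ∈ T, Q.wt v * (Q.pole v x - (if v ∈ S then 1 else 0) - Q.loss v) =
          ∑ v ∈ T, Q.wt v * Q.pole v x - ∑ v ∈ T, Q.wt v * (if v ∈ S then 1 else 0) - ∑ v ∈ T, Q.wt v * Q.loss v := by
        rw [← Finset.sum_sub_distrib, ← Finset.sum_sub_distrib]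
        refine Finset.sum_congr rfl fun v _ => ?_
        ring
      have h4 : ∑ v ∈ T, Q.wt v * (if v ∈ S then 1 else 0) = ∑ v ∈ S, Q.wt v := by
        rw [← Finset.sum_filter_add_sum_filter_not T (fun v => v ∈ S)]
        have h5 : T.filter (fun v => v ∈ S) = S := by
          ext v
          rw [Finset.mem_filter]
          refine ⟨fun h => h.2, fun h => ⟨?_, h⟩⟩
          rw [hT]
          exact Finset.mem_union_left _ (Finset.mem_union_left _ h)
        rw [h5]
        have h6 : ∑ v ∈ T.filter (fun v => v ∉ S), Q.wt v * (if v ∈ S then 1 else 0) = 0 := by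
          refine Finset.sum_eq_zero fun v hv => ?_
          rw [Finset.mem_filter] at hv
          rw [if_neg hv.2, mul_zero]
        rw [h6, add_zero]
        refine Finset.sum_congr rfl fun v hv => ?_
        rw [if_pos hv, mul_one]
      have h5 : ∑ v ∈ T, Q.wt v * Q.loss v = ∑ v ∈ Q.lossS, Q.wt v * Q.loss v := by
        symm
        refine Finset.sum_subset ?_ fun v _ hv => ?_
        · rw [hT]
          exact fun v hv => Finset.mem_union_left _ (Finset.mem_union_right _ hv)
        · rw [Q.loss_supp v hv, mul_zero]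
      have h6 : ∑ v ∈ S', Q.wt v * Q.pole v x ≤ ∑ v ∈ T, Q.wt v * Q.pole v x := by
        refine Finset.sum_le_sum_of_subset_of_nonneg ?_ fun v _ _ => mul_nonneg (Q.wt_nonneg v) (Q.pole_nonneg v x)
        rw [hT]
        exact Finset.subset_union_right
      have h7 := Q.loss_sum
      linarith
  calc ∑ v ∈ S', (Q.wt v : ℝ) * Q.pole v x = ((∑ v ∈ S', Q.wt v * Q.pole v x : ℤ) : ℝ) := by push_cast; rfl
    _ ≤ _ := by exact_mod_cast key

end Pool.Agent.Q150.OP
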